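import Pool.Agent.Helper78.W3.StD

/-!
# Project W3, module HK7, row 0
-/

set_option autoImplicit false

namespace Pool.Agent.Helper43.W3

open Pool.Agent.Helper14.CV (Homog EqC act Tl)
open Pool.Agent.Helper78.W3 Pool.Agent.Helper14.W3

/-- The potential at the standard matrix. -/
private noncomputable def pot {r s : ℕ} (G : ℤ → ℤ → ZMod 3) (u1 u2 : ℤ) (x : ZMod (3 ^ r)) (y : ZMod (3 ^ s)) :
    ZMod 3 :=
  G (u1 + 3 ^ 1 * (x.val : ℤ) * u2) (3 * rY3 1 x y * u1 + (1 + 3 ^ (1 + 1) * (x.val : ℤ) * rY3 1 x y) * u2)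

private theorem edge_pot {r s : ℕ} (G : ℤ → ℤ → ZMod 3) (x : ZMod (3 ^ r)) (y : ZMod (3 ^ s))
    (u1 u2 v1 v2 : ℤ) : edge3 1 u1 u2 v1 v2 G x y = pot G u1 u2 x y - pot G v1 v2 x y := rfl

private theorem pot_hom {r s : ℕ} {G : ℤ → ℤ → ZMod 3} (hG : Homog G) (x : ZMod (3 ^ r))
    (y : ZMod (3 ^ s)) (k u1 u2 : ℤ) (hk : k ≠ 0) (hu : u1 ≠ 0 ∨ u2 ≠ 0) :
    pot G (k * u1) (k * u2) x y = pot G u1 u2 x y := by
  unfold pot
  have h := hG k (u1 + 3 ^ 1 * (x.val : ℤ) * u2)
    (3 * rY3 1 x y * u1 + (1 + 3 ^ (1 + 1) * (x.val : ℤ) * rY3 1 x y) * u2) hk (by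
      by_contra hc
      push Not at hc
      obtain ⟨h1, h2⟩ := hc
      have hu2 : u2 = 0 := by
        linear_combination h2 - 3 * rY3 1 x y * h1
      have hu1 : u1 = 0 := by
        rw [hu2] at h1
        linear_combination h1
      rcases hu with h | h
      · exact h hu1
      · exact h hu2)
  rw [← h]
  congr 1 <;> ring

/-- The potential at the point translated by `(7 -3j; 0 1)`. -/
private noncomputable def W {r s : ℕ} (G : ℤ → ℤ → ZMod 3) (x : ZMod (3 ^ r)) (y : ZMod (3 ^ s))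
    (j u1 u2 : ℤ) : ZMod 3 := tr 7 (-j) 0 1 (pot G u1 u2) x y

private theorem W_hom {r s : ℕ} {G : ℤ → ℤ → ZMod 3} (hG : Homog G) (x : ZMod (3 ^ r))
    (y : ZMod (3 ^ s)) (j k u1 u2 : ℤ) (hk : k ≠ 0) (hu : u1 ≠ 0 ∨ u2 ≠ 0) :
    W G x y j (k * u1) (k * u2) = W G x y j u1 u2 := by
  unfold W tr
  exact pot_hom hG _ _ k u1 u2 hk hu

/-- The value of a term of the list which comes from the residue `j`. -/
private theorem key (hTre : S3Tre) (hTrm : S3Trm) {r s : ℕ} {G : ℤ → ℤ → ZMod 3}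
    (hG : Sym3 (r + 1) (s + 1) G) (x : ZMod (3 ^ r)) (y : ZMod (3 ^ s)) (f : Fin 3)
    (j k a b c d : ℤ) (hdet : a * d - 9 * b * c = 1) (hk : ¬ 3 ∣ k) (ha : ¬ 3 ∣ a) (hd : ¬ 3 ∣ d)
    (A B C D u1 u2 v1 v2 : ℤ) (hA : k * (7 * a - 9 * j * c) = A) (hB : k * (7 * b - j * d) = B)
    (hC : k * c = C) (hD : k * d = D) (h1 : a = u1) (h2 : 3 * c = u2) (h3 : a * e3 f + 3 * b = v1)
    (h4 : 3 * c * e3 f + d = v2) :
    tr A B C D (pf G f) x y = W G x y j u1 u2 - W G x y j v1 v2 := by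
  have e1 : (tr a b c d (pf G f) : ZMod (3 ^ r) → ZMod (3 ^ s) → ZMod 3) =
      fun x y => pot G u1 u2 x y - pot G v1 v2 x y := by
    funext x y
    have h := hTre (ZMod 3) _ r s G hG a b c d 1 0 (e3 f) 1 hdet (Or.inl one_ne_zero)
      (Or.inr one_ne_zero) x y
    have h' : tr a b c d (pf G f) x y = tr a b c d (edge3 1 1 0 (e3 f) 1 G) x y := rfl
    rw [h', ← h, edge_pot]
    congr 2
    · rw [← h1]; ring
    · rw [← h2]; ring
    · rw [← h3]; ring
    · rw [← h4]; ring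
  obtain ⟨q1, q2, q3⟩ := hTrm (ZMod 3) r s (pf G f)
  have hA3 : ¬ 3 ∣ 7 * a - 9 * j * c := by
    rintro ⟨t, ht⟩
    exact ha ⟨t + 3 * j * c - 2 * a, by linear_combination ht⟩
  have e2 : (tr A B C D (pf G f) : ZMod (3 ^ r) → ZMod (3 ^ s) → ZMod 3) =
      tr 7 (-j) 0 1 (tr a b c d (pf G f)) := by
    rw [q1 7 (-j) 0 1 a b c d (by norm_num) (by norm_num) ha hd, ← hA, ← hB, ← hC, ← hD,
      q3 k _ _ _ _ hk hA3 hd]
    congr 1 <;> ring
  rw [e2, e1]
  rfl

private theorem opL_cons (t : Tm) (L : List Tm) {q q' : ℕ} (F : Fn3 q q') (x : ZMod q) (y : ZMod q') :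
    opL (t :: L) F x y = ((t.1 : ℤ) : ZMod 3) * tr t.2.1 t.2.2.1 t.2.2.2.1 t.2.2.2.2 F x y +
      opL L F x y := by
  unfold opL
  rw [List.map_cons, List.sum_cons]
  rfl

private theorem opL_nil {q q' : ℕ} (F : Fn3 q q') (x : ZMod q) (y : ZMod q') :
    opL [] F x y = 0 := rfl

theorem hHk7_0 (hHkF : S3HkF) (hTre : S3Tre) (hTrm : S3Trm) : S3Hk7 0 := by
  intro r s G hG
  funext x y
  have hJ := hHkF (ZMod 3) _ r s 7 G {0, 1, -1, 2, -2, 3, -3} (by norm_num) (by norm_num) hG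
    (by decide) (by decide) 0 1 (Or.inr one_ne_zero) x y
  have hL : (pf (Tl 7 (3 ^ (r + 1)) G) 0 : Fn3 (3 ^ r) (3 ^ s)) x y =
      edge3 1 1 0 0 1 (Tl 7 (3 ^ (r + 1)) G) x y := rfl
  have hT : ∀ j w1 w2 : ℤ, tr 7 (-j) 0 1 (edge3 1 1 0 w1 w2 G) x y =
      W G x y j 1 0 - W G x y j w1 w2 := fun j w1 w2 => rfl
  have h0 : (edge3 1 1 0 0 1 G : Fn3 (3 ^ r) (3 ^ s)) = pf G 0 := rfl
  rw [hL, hJ, Finset.sum_insert (by decide), Finset.sum_insert (by decide),
    Finset.sum_insert (by decide), Finset.sum_insert (by decide), Finset.sum_insert (by decide),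
    Finset.sum_insert (by decide), Finset.sum_singleton]
  have k1 := W_hom hG.1 x y 0 7 0 1 (by norm_num) (by norm_num)
  have k2 := W_hom hG.1 x y (-1) (-1) (-1) 1 (by norm_num) (by norm_num)
  have k3 := W_hom hG.1 x y (-1) (-1) (-1) 2 (by norm_num) (by norm_num)
  norm_num at k1 k2 k3
  have K := fun f j k a b c d hdet hk ha hd A B C D u1 u2 v1 v2 =>
    key hTre hTrm hG x y f j k a b c d hdet hk ha hd A B C D u1 u2 v1 v2
  have a0 := K 0 (-3) 1 4 (-3) (-1) 7 (by norm_num) (by norm_num) (by norm_num) (by norm_num) 1 0 (-1) 7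
    4 (-3) (-9) 7 (by norm_num) (by norm_num) (by norm_num) (by norm_num) (by norm_num) (by norm_num)
    (by decide) (by decide)
  have a1 := K 0 (-2) 1 (-5) (-2) 2 7 (by norm_num) (by norm_num) (by norm_num) (by norm_num) 1 0 2 7
    (-5) 6 (-6) 7 (by norm_num) (by norm_num) (by norm_num) (by norm_num) (by norm_num) (by norm_num)
    (by decide) (by decide)
  have a2 := K 0 (-1) 1 4 (-1) (-3) 7 (by norm_num) (by norm_num) (by norm_num) (by norm_num) 1 0 (-3) 7
    4 (-9) (-3) 7 (by norm_num) (by norm_num) (by norm_num) (by norm_num) (by norm_num) (by norm_num)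
    (by decide) (by decide)
  have a3 := K 0 0 1 1 0 0 1 (by norm_num) (by norm_num) (by norm_num) (by norm_num) 7 0 0 1
    1 0 0 1 (by norm_num) (by norm_num) (by norm_num) (by norm_num) (by norm_num) (by norm_num)
    (by decide) (by decide)
  have a4 := K 0 1 1 4 1 3 7 (by norm_num) (by norm_num) (by norm_num) (by norm_num) 1 0 3 7
    4 9 3 7 (by norm_num) (by norm_num) (by norm_num) (by norm_num) (by norm_num) (by norm_num)
    (by decide) (by decide)
  have a5 := K 0 1 1 1 0 1 1 (by norm_num) (by norm_num) (by norm_num) (by norm_num) (-2) (-1) 1 1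
    1 3 0 1 (by norm_num) (by norm_num) (by norm_num) (by norm_num) (by norm_num) (by norm_num)
    (by decide) (by decide)
  have a6 := K 0 1 1 1 0 0 1 (by norm_num) (by norm_num) (by norm_num) (by norm_num) 7 (-1) 0 1
    1 0 0 1 (by norm_num) (by norm_num) (by norm_num) (by norm_num) (by norm_num) (by norm_num)
    (by decide) (by decide)
  have a7 := K 0 2 1 (-5) 2 (-2) 7 (by norm_num) (by norm_num) (by norm_num) (by norm_num) 1 0 (-2) 7
    (-5) (-6) 6 7 (by norm_num) (by norm_num) (by norm_num) (by norm_num) (by norm_num) (by norm_num)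
    (by decide) (by decide)
  have a8 := K 0 3 1 4 3 1 7 (by norm_num) (by norm_num) (by norm_num) (by norm_num) 1 0 1 7
    4 3 9 7 (by norm_num) (by norm_num) (by norm_num) (by norm_num) (by norm_num) (by norm_num)
    (by decide) (by decide)
  have a9 := K 1 (-1) 1 4 (-1) (-3) 7 (by norm_num) (by norm_num) (by norm_num) (by norm_num) 1 0 (-3) 7
    4 (-9) 1 (-2) (by norm_num) (by norm_num) (by norm_num) (by norm_num) (by norm_num) (by norm_num)
    (by decide) (by decide)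
  have a10 := K 1 (-1) (-1) 2 (-1) (-1) 5 (by norm_num) (by norm_num) (by norm_num) (by norm_num) (-5) 2 1 (-5)
    2 (-3) (-1) 2 (by norm_num) (by norm_num) (by norm_num) (by norm_num) (by norm_num) (by norm_num)
    (by decide) (by decide)
  have a11 := K 1 2 1 (-5) 2 (-2) 7 (by norm_num) (by norm_num) (by norm_num) (by norm_num) 1 0 (-2) 7
    (-5) (-6) 1 1 (by norm_num) (by norm_num) (by norm_num) (by norm_num) (by norm_num) (by norm_num)
    (by decide) (by decide)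
  have a12 := K 1 2 1 1 0 0 1 (by norm_num) (by norm_num) (by norm_num) (by norm_num) 7 (-2) 0 1
    1 0 1 1 (by norm_num) (by norm_num) (by norm_num) (by norm_num) (by norm_num) (by norm_num)
    (by decide) (by decide)
  have a13 := K 1 3 1 4 (-1) 1 (-2) (by norm_num) (by norm_num) (by norm_num) (by norm_num) 1 (-1) 1 (-2)
    4 3 1 1 (by norm_num) (by norm_num) (by norm_num) (by norm_num) (by norm_num) (by norm_num)
    (by decide) (by decide)
  have a14 := K 1 3 1 1 0 0 1 (by norm_num) (by norm_num) (by norm_num) (by norm_num) 7 (-3) 0 1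
    1 0 1 1 (by norm_num) (by norm_num) (by norm_num) (by norm_num) (by norm_num) (by norm_num)
    (by decide) (by decide)
  have a15 := K 2 (-3) 1 4 1 (-1) (-2) (by norm_num) (by norm_num) (by norm_num) (by norm_num) 1 1 (-1) (-2)
    4 (-3) (-1) 1 (by norm_num) (by norm_num) (by norm_num) (by norm_num) (by norm_num) (by norm_num)
    (by decide) (by decide)
  have a16 := K 2 (-3) 1 1 0 0 1 (by norm_num) (by norm_num) (by norm_num) (by norm_num) 7 3 0 1
    1 0 (-1) 1 (by norm_num) (by norm_num) (by norm_num) (by norm_num) (by norm_num) (by norm_num)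
    (by decide) (by decide)
  have a17 := K 2 (-2) 1 (-5) (-2) 2 7 (by norm_num) (by norm_num) (by norm_num) (by norm_num) 1 0 2 7
    (-5) 6 (-1) 1 (by norm_num) (by norm_num) (by norm_num) (by norm_num) (by norm_num) (by norm_num)
    (by decide) (by decide)
  have a18 := K 2 (-2) 1 1 0 0 1 (by norm_num) (by norm_num) (by norm_num) (by norm_num) 7 2 0 1
    1 0 (-1) 1 (by norm_num) (by norm_num) (by norm_num) (by norm_num) (by norm_num) (by norm_num)
    (by decide) (by decide)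
  have a19 := K 2 (-1) (-1) 2 1 (-1) (-4) (by norm_num) (by norm_num) (by norm_num) (by norm_num) (-5) (-3) 1 4
    2 (-3) 1 (-1) (by norm_num) (by norm_num) (by norm_num) (by norm_num) (by norm_num) (by norm_num)
    (by decide) (by decide)
  have a20 := K 2 (-1) 1 1 0 0 1 (by norm_num) (by norm_num) (by norm_num) (by norm_num) 7 1 0 1
    1 0 (-1) 1 (by norm_num) (by norm_num) (by norm_num) (by norm_num) (by norm_num) (by norm_num)
    (by decide) (by decide)
  have a21 := K 2 1 1 4 1 3 7 (by norm_num) (by norm_num) (by norm_num) (by norm_num) 1 0 3 7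
    4 9 (-1) (-2) (by norm_num) (by norm_num) (by norm_num) (by norm_num) (by norm_num) (by norm_num)
    (by decide) (by decide)
  have a22 := K 2 1 1 1 0 1 1 (by norm_num) (by norm_num) (by norm_num) (by norm_num) (-2) (-1) 1 1
    1 3 (-1) (-2) (by norm_num) (by norm_num) (by norm_num) (by norm_num) (by norm_num) (by norm_num)
    (by decide) (by decide)
  have r0 : T7L 0 0 = [(1, 1, 0, 0, 7), (1, 1, 0, -1, 7), (1, 1, 0, 2, 7), (1, 1, 0, -3, 7), 
        (1, 7, 0, 0, 1), (1, 1, 0, 3, 7), (-1, -2, -1, 1, 1), (1, 7, -1, 0, 1), 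
        (1, 1, 0, -2, 7), (1, 1, 0, 1, 7)] := rfl
  have r1 : T7L 0 1 = [(-1, 1, 0, -3, 7), (1, -5, 2, 1, -5), (-1, 1, 0, -2, 7), (1, 7, -2, 0, 1), 
        (-1, 1, -1, 1, -2), (1, 7, -3, 0, 1)] := rfl
  have r2 : T7L 0 2 = [(-1, 1, 1, -1, -2), (1, 7, 3, 0, 1), (-1, 1, 0, 2, 7), (1, 7, 2, 0, 1), 
        (-1, -5, -3, 1, 4), (1, 7, 1, 0, 1), (-1, 1, 0, 3, 7), (1, -2, -1, 1, 1)] := rfl
  have hR : (∑ f : Fin 3, opL (T7L 0 f) (pf G f) : Fn3 (3 ^ r) (3 ^ s)) x y =
      opL (T7L 0 0) (pf G 0) x y + opL (T7L 0 1) (pf G 1) x y + opL (T7L 0 2) (pf G 2) x y := by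
    rw [Fin.sum_univ_three]
    rfl
  rw [hR, r0, r1, r2]
  simp only [opL_cons, opL_nil]
  rw [a0, a1, a2, a3, a4, a5, a6, a7, a8, a9, a10, a11, a12, a13, a14, a15, a16, a17, a18, a19, a20, a21, a22]
  have hT' : ∀ j w1 w2 : ℤ, tr ((7 : ℕ) : ℤ) (-j) 0 1 (edge3 1 1 0 w1 w2 G) x y =
      W G x y j 1 0 - W G x y j w1 w2 := fun j w1 w2 => rfl
  simp only [hT']
  norm_num
  rw [h0, k1, k2, k3]
  ring

end Pool.Agent.Helper43.W3
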